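import Mathlib
import Pool.Agent.Results.MP_bc0e65_co.EveryPeriod
import Pool.Agent.Y906.MQ.Closure

/-!
# Every period occurs in a finite misère quotient of a single game

The starting file `EveryPeriod` answers the questions: for every `p ≥ 1` some closed set of games
has a misère quotient with an element of period `p`.  Here the closed set is the closure `cl g` of
the set of positions of ONE finite game `g` (the typical example of the problem), the quotient is
FINITE, and the set of all periods of its elements is determined: it is the set of divisors of
`4 N`, for any prescribed `N ≥ 2`.  So all periods up to a given bound occur in one finite misère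
quotient.
-/

set_option autoImplicit false

namespace Pool.Agent.Results.MP_bc0e65_co.FiniteQuotient

open Pool.Agent.Results.MP_bc0e65_co.EveryPeriod
open Pool.Agent.Y906.MQ

/-- **Periods in finite misère quotients of single games.**
(1) For every `N ≥ 2` there is a finite impartial game `g` such that the misère quotient of the
closure `cl g` of its set of positions is finite and the periods of its elements are exactly the
divisors of `4 N`; each of them is the period of an element `x` with `(1 + p) x = x`, whose
multiples form a cyclic group of order `p`.
(2) For every `N` there is one game `g` whose misère quotient is finite and contains for every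
`p` with `1 ≤ p ≤ N` an element of period `p`.
(3) Every `p ≥ 1` is the period of an element of the finite misère quotient of some game (the
answer to both questions). -/
theorem result :
    (∀ N : ℕ, 2 ≤ N → ∃ g : Game, Finite (MisereQuotient (cl g) (cl_closed g)) ∧
      (∀ (x : MisereQuotient (cl g) (cl_closed g)) (p : ℕ), HasPeriod x p → p ∣ 4 * N) ∧
      ∀ p : ℕ, p ∣ 4 * N → ∃ x : MisereQuotient (cl g) (cl_closed g),
        HasPeriod x p ∧ (1 + p) • x = x) ∧
    (∀ N : ℕ, ∃ g : Game, Finite (MisereQuotient (cl g) (cl_closed g)) ∧
      ∀ p : ℕ, 1 ≤ p → p ≤ N → ∃ x : MisereQuotient (cl g) (cl_closed g),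
        HasPeriod x p ∧ (1 + p) • x = x) ∧
    (∀ p : ℕ, 1 ≤ p → ∃ g : Game, Finite (MisereQuotient (cl g) (cl_closed g)) ∧
      ∃ x : MisereQuotient (cl g) (cl_closed g), HasPeriod x p) := by
  refine ⟨periods, fun N => ?_, fun p hp => ?_⟩
  · obtain ⟨g, hfin, -, h⟩ := periods (2 * Nat.factorial N)
      (by have := Nat.factorial_pos N; omega)
    refine ⟨g, hfin, fun p hp1 hpN => h p ?_⟩
    exact (Nat.dvd_factorial hp1 hpN).trans ⟨8, by ring⟩
  · obtain ⟨g, hfin, -, h⟩ := periods (2 * p) (by omega)
    obtain ⟨x, hx, -⟩ := h p ⟨8, by ring⟩
    exact ⟨g, hfin, x, hx⟩

end Pool.Agent.Results.MP_bc0e65_co.FiniteQuotient
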